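import Pool.Agent.V8H35.AP.CN2

set_option autoImplicit false

/-!
# Close pairs of `a`-points of the zeta function for generic complex `a`

For almost every complex `a` the distance of two different solutions `s, s'` of `ζ(s) = a` with
`Re s ≥ 1/2` is more than `(Im s)^(-κ)` for every `κ > 1/4` and `Im s` large, the number of the solutions
up to `X` with another one at distance at most `X^(-κ)` is at most `X^(1-4κ+ε)`, and the exceptional values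
form a set of Hausdorff dimension at most `1/(2κ)`.
-/

namespace Pool.Agent.Results.MP_af3d17_nt.GenericAPoints

open Complex Metric Set MeasureTheory Filter
open scoped ENNReal

theorem null_of_dim (S : Set ℂ) (h : dimH S < ((2 : NNReal) : ℝ≥0∞)) : volume S = 0 := by
  have h3 := hausdorffMeasure_of_dimH_lt h
  have h5 := Complex.lipschitz_equivRealProd.hausdorffMeasure_image_le (d := ((2 : NNReal) : ℝ)) (by norm_num) S
  rw [h3, mul_zero] at h5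
  have h6 : (Measure.hausdorffMeasure (((2 : NNReal) : ℝ)) : Measure (ℝ × ℝ)) = volume := by
    rw [NNReal.coe_ofNat]; exact hausdorffMeasure_prod_real
  rw [h6] at h5
  have h7 := (Complex.volume_preserving_equiv_real_prod).measure_preimage_equiv (Complex.equivRealProd '' S)
  rw [le_antisymm h5 (zero_le)] at h7
  refine measure_mono_null ?_ h7
  intro z hz
  exact ⟨z, hz, rfl⟩

/-- the values `a` with arbitrarily high pairs of different solutions `s, s'` of `ζ(s) = a` with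
`Re s ≥ σ` at distance at most `(Im s)^(-κ)` -/
def Exceptional (σ κ : ℝ) : Set ℂ := {a | ∀ T : ℝ, ∃ s s' : ℂ, s ≠ s' ∧ riemannZeta s = a ∧
  riemannZeta s' = a ∧ T ≤ s.im ∧ σ ≤ s.re ∧ ‖s - s'‖ ≤ s.im ^ (-κ)}

/-- the solutions `s` of `ζ(s) = a` with `Re s ≥ 1/2`, `X < Im s ≤ 2X` which have another solution at
distance at most `δ` -/
def Near (a : ℂ) (δ X : ℝ) : Set ℂ := {s | riemannZeta s = a ∧ 1 / 2 ≤ s.re ∧ X < s.im ∧ s.im ≤ 2 * X ∧
  ∃ s' : ℂ, s ≠ s' ∧ riemannZeta s' = a ∧ ‖s - s'‖ ≤ δ}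

theorem re_le (a : ℂ) (h1 : a ≠ 1) : ∃ B : ℕ, ∀ s : ℂ, riemannZeta s = a → s.re ≤ ((B + 2 : ℕ) : ℝ) := by
  have hpos : 0 < ‖a - 1‖ := norm_pos_iff.2 (sub_ne_zero.2 h1)
  obtain ⟨B, hB⟩ : ∃ B : ℕ, (2 : ℝ) ^ (2 - (B + 2 : ℝ)) < ‖a - 1‖ := by
    have h2 : Tendsto (fun n : ℕ => ((1 / 2 : ℝ)) ^ n) atTop (nhds 0) :=
      tendsto_pow_atTop_nhds_zero_of_lt_one (by norm_num) (by norm_num)
    obtain ⟨B, hB⟩ := (h2.eventually (gt_mem_nhds hpos)).exists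
    refine ⟨B, ?_⟩
    have e : (2 : ℝ) ^ (2 - (B + 2 : ℝ)) = (1 / 2 : ℝ) ^ B := by
      rw [show (2 - (B + 2 : ℝ)) = -(B : ℝ) by ring, Real.rpow_neg (by norm_num), Real.rpow_natCast, one_div,
        inv_pow]
    rw [e]; exact hB
  refine ⟨B, fun s h3 => ?_⟩
  by_contra hcon
  push Not at hcon
  push_cast at hcon
  have hB0 : (0 : ℝ) ≤ B := Nat.cast_nonneg _
  have h8 := Pool.Agent.V8H35.AP.right_one s (by linarith)
  rw [h3] at h8
  have h9 : (2 : ℝ) ^ (2 - s.re) ≤ (2 : ℝ) ^ (2 - (B + 2 : ℝ)) :=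
    Real.rpow_le_rpow_of_exponent_le (by norm_num) (by linarith)
  have hp1 := Real.pi_lt_d2
  have hp0 := Real.pi_gt_three
  have hc : Real.pi ^ 2 / 6 - 1 ≤ 1 := by nlinarith
  have h10 : (2 : ℝ) ^ (2 - s.re) * (Real.pi ^ 2 / 6 - 1) ≤ (2 : ℝ) ^ (2 - s.re) * 1 := by gcongr
  linarith

theorem exc_sub (κ η : ℝ) : Exceptional (1 / 2 - η) κ ⊆
    {1} ∪ ⋃ B : ℕ, Pool.Agent.V8H35.AP.Bad κ η (B + 2) := by
  intro a ha
  by_cases h1 : a = 1
  · left; exact h1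
  right
  obtain ⟨B, hB⟩ := re_le a h1
  rw [mem_iUnion]
  refine ⟨B, fun T => ?_⟩
  obtain ⟨s, s', h2, h3, h4, h5, h6, h7⟩ := ha T
  exact ⟨s, s', h2, h5, h6, hB s h3, by rwa [norm_sub_rev], h3, h4⟩

theorem exc_dim_le (κ D : ℝ) (hκ : 0 < κ) (hD0 : 0 < D) (hD2 : D ≤ 2) (hD : 1 < 2 * κ * D) :
    ∃ η : ℝ, 0 < η ∧ dimH (Exceptional (1 / 2 - η) κ) ≤ ENNReal.ofReal D := by
  obtain ⟨η, hη, h⟩ := Pool.Agent.V8H35.AP.bad_dim κ D hκ hD0 hD2 hD
  refine ⟨η, hη, (dimH_mono (exc_sub κ η)).trans ?_⟩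
  rw [dimH_union, dimH_singleton, dimH_iUnion]
  exact max_le (zero_le) (iSup_le fun B => h (B + 2) (by omega))

theorem exc_mono {σ σ' κ κ' : ℝ} (hσ : σ ≤ σ') (h : κ' ≤ κ) : Exceptional σ' κ ⊆ Exceptional σ κ' := by
  intro a h1 T
  obtain ⟨s, s', h2, h3, h4, h5, h6, h7⟩ := h1 (max T 1)
  refine ⟨s, s', h2, h3, h4, (le_max_left _ _).trans h5, hσ.trans h6, h7.trans ?_⟩
  exact Real.rpow_le_rpow_of_exponent_le ((le_max_right _ _).trans h5) (by linarith)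

theorem exc_dim (κ : ℝ) (hκ : 1 / 4 < κ) : dimH (Exceptional (1 / 2) κ) ≤ ENNReal.ofReal (1 / (2 * κ)) := by
  refine le_of_forall_gt_imp_ge_of_dense fun d hd => ?_
  rcases eq_or_ne d ∞ with h | h
  · rw [h]; exact le_top
  obtain ⟨x, hx⟩ : ∃ x : ℝ, x = d.toReal := ⟨_, rfl⟩
  have hdx : d = ENNReal.ofReal x := by rw [hx, ENNReal.ofReal_toReal h]
  rw [hdx] at hd ⊢
  have h2k : 0 < 2 * κ := by linarith
  have hlt : 1 / (2 * κ) < x := (ENNReal.ofReal_lt_ofReal_iff_of_nonneg (by positivity)).1 hd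
  have hk1 : 1 / (2 * κ) < 2 := by rw [div_lt_iff₀ h2k]; linarith
  have hmin : 1 / (2 * κ) < min x 2 := lt_min hlt hk1
  have hpos : 0 < 1 / (2 * κ) := by positivity
  obtain ⟨η, hη, h1⟩ := exc_dim_le κ (min x 2) (by linarith) (by linarith) (min_le_right _ _) (by
    rw [div_lt_iff₀ h2k] at hmin
    linarith)
  refine (dimH_mono (exc_mono (show 1 / 2 - η ≤ 1 / 2 by linarith) le_rfl)).trans
    (h1.trans (ENNReal.ofReal_le_ofReal (min_le_left _ _)))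

theorem exc_null (κ : ℝ) (hκ : 1 / 4 < κ) : ∃ η : ℝ, 0 < η ∧ volume (Exceptional (1 / 2 - η) κ) = 0 := by
  have h2k : 0 < 2 * κ := by linarith
  obtain ⟨D, hD1, hD2⟩ : ∃ D : ℝ, 1 / (2 * κ) < D ∧ D < 2 := by
    refine exists_between ?_
    rw [div_lt_iff₀ h2k]; linarith
  have hpos : 0 < 1 / (2 * κ) := by positivity
  obtain ⟨η, hη, h1⟩ := exc_dim_le κ D (by linarith) (by linarith) hD2.le (by
    rw [div_lt_iff₀ h2k] at hD1
    linarith)
  refine ⟨η, hη, null_of_dim _ (h1.trans_lt ?_)⟩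
  rw [ENNReal.coe_ofNat, ← ENNReal.ofReal_ofNat]
  exact (ENNReal.ofReal_lt_ofReal_iff (by norm_num)).2 hD2

theorem near_count : ∀ᵐ a : ℂ, ∀ κ ε : ℝ, 0 < κ → 0 < ε → ∃ X₀ : ℝ, ∀ X : ℝ, X₀ ≤ X →
    (Near a (X ^ (-κ)) X).Finite ∧ ((Near a (X ^ (-κ)) X).ncard : ℝ) ≤ X ^ (1 - 4 * κ + ε) := by
  have hae : ∀ᵐ a : ℂ, ∀ (q : ℚ) (n B : ℕ), 1 / ((n : ℝ) + 1) < (q : ℝ) → 2 ≤ B → ∀ᶠ j : ℕ in atTop,
      Pool.Agent.V8H35.AP.nn (q : ℝ) (1 / ((n : ℝ) + 1)) (1 / ((n : ℝ) + 1) / 8) B j a ≤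
        ENNReal.ofReal ((2 : ℝ) ^ ((1 - 4 * (q : ℝ) + 8 * (1 / ((n : ℝ) + 1))) * j)) := by
    rw [ae_all_iff]
    intro q
    rw [ae_all_iff]
    intro n
    rw [ae_all_iff]
    intro B
    by_cases h : 1 / ((n : ℝ) + 1) < (q : ℝ) ∧ 2 ≤ B
    · have hn1 : 1 / ((n : ℝ) + 1) ≤ 1 := by
        rw [div_le_one (by positivity)]
        linarith [(Nat.cast_nonneg n : (0 : ℝ) ≤ n)]
      filter_upwards [Pool.Agent.V8H35.AP.nn_ae (q : ℝ) (1 / ((n : ℝ) + 1)) (by positivity) hn1 h.1.le B h.2]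
        with a ha _ _
      exact ha
    · exact Eventually.of_forall fun a h1 h2 => absurd ⟨h1, h2⟩ h
  filter_upwards [hae, (countable_singleton (1 : ℂ)).ae_notMem volume] with a ha ha1 κ ε hκ hε
  obtain ⟨B, hB⟩ := re_le a ha1
  obtain ⟨n, hn⟩ := exists_nat_one_div_lt (show (0 : ℝ) < min (ε / 18) (κ / 3) from
    lt_min (by positivity) (by positivity))
  obtain ⟨e, he⟩ : ∃ e : ℝ, e = 1 / ((n : ℝ) + 1) := ⟨_, rfl⟩
  have he0 : 0 < e := by rw [he]; positivity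
  have he1 : e ≤ 1 := by
    rw [he, div_le_one (by positivity)]
    linarith [(Nat.cast_nonneg n : (0 : ℝ) ≤ n)]
  rw [← he] at hn
  have hn1 : e < ε / 18 := hn.trans_le (min_le_left _ _)
  have hn2 : e < κ / 3 := hn.trans_le (min_le_right _ _)
  obtain ⟨q, hq1, hq2⟩ := exists_rat_btwn (show κ - 2 * e < κ - e by linarith)
  have hq : e < (q : ℝ) := by linarith
  have h1 := ha q n (B + 2) (by rw [← he]; exact hq) (by omega)
  rw [← he] at h1
  obtain ⟨X₀, hX₀⟩ := Pool.Agent.V8H35.AP.close_count (q : ℝ) e he0 he1 hq (B + 2) (by omega) a ha1 h1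
  refine ⟨max X₀ 1, fun X hX => ?_⟩
  have h2 : X₀ ≤ X := (le_max_left _ _).trans hX
  have h3 : 1 ≤ X := (le_max_right _ _).trans hX
  obtain ⟨h4, h5⟩ := hX₀ X h2
  have hsub : Near a (X ^ (-κ)) X ⊆ Pool.Agent.V8H35.AP.close a (B + 2) (X ^ (-((q : ℝ) + e))) X := by
    rintro s ⟨k1, k2, k3, k4, s', k5, k6, k7⟩
    refine ⟨k1, k2, hB s k1, k3, k4, s', k5, k6, k7.trans ?_⟩
    exact Real.rpow_le_rpow_of_exponent_le h3 (by linarith)
  refine ⟨h4.subset hsub, ?_⟩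
  have h6 : ((Near a (X ^ (-κ)) X).ncard : ℝ) ≤
      (Pool.Agent.V8H35.AP.close a (B + 2) (X ^ (-((q : ℝ) + e))) X).ncard := by
    exact_mod_cast Set.ncard_le_ncard hsub h4
  refine h6.trans (h5.trans ?_)
  exact Real.rpow_le_rpow_of_exponent_le h3 (by linarith)

/-- Close pairs of `a`-points of zeta.
(1) For almost every complex `a`, all `κ, ε > 0` and large `X`, at most `X^(1-4κ+ε)` solutions `s` of
`ζ(s) = a` with `Re s ≥ 1/2`, `X < Im s ≤ 2X` have another solution at distance at most `X^(-κ)`.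
(2) For `κ > 1/4` there is `η > 0` such that for almost every complex `a` any two different solutions
`s, s'` of `ζ(s) = a` with `Re s ≥ 1/2 - η` and `Im s` large have distance more than `(Im s)^(-κ)`.
(3) For `κ > 1/4` the values `a` with arbitrarily high pairs with `Re s ≥ 1/2` at distance at most
`(Im s)^(-κ)` form a set of Hausdorff dimension at most `1/(2κ)`.
(4) The values `a` for which the smallest distances are below every power form a set of dimension zero. -/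
theorem result :
    (∀ᵐ a : ℂ, ∀ κ ε : ℝ, 0 < κ → 0 < ε → ∃ X₀ : ℝ, ∀ X : ℝ, X₀ ≤ X →
      (Near a (X ^ (-κ)) X).Finite ∧ ((Near a (X ^ (-κ)) X).ncard : ℝ) ≤ X ^ (1 - 4 * κ + ε)) ∧
    (∀ κ : ℝ, 1 / 4 < κ → ∃ η : ℝ, 0 < η ∧ ∀ᵐ a : ℂ, ∃ T : ℝ, ∀ s s' : ℂ, s ≠ s' → riemannZeta s = a →
      riemannZeta s' = a → T ≤ s.im → 1 / 2 - η ≤ s.re → s.im ^ (-κ) < ‖s - s'‖) ∧
    (∀ κ : ℝ, 1 / 4 < κ → dimH (Exceptional (1 / 2) κ) ≤ ENNReal.ofReal (1 / (2 * κ))) ∧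
    dimH {a : ℂ | ∀ κ : ℝ, a ∈ Exceptional (1 / 2) κ} = 0 := by
  refine ⟨near_count, ?_, exc_dim, ?_⟩
  · intro κ hκ
    obtain ⟨η, hη, h⟩ := exc_null κ hκ
    refine ⟨η, hη, ?_⟩
    filter_upwards [measure_eq_zero_iff_ae_notMem.1 h] with a ha
    by_contra hcon
    push Not at hcon
    apply ha
    intro T
    obtain ⟨s, s', h2, h3, h4, h5, h6, h7⟩ := hcon T
    exact ⟨s, s', h2, h3, h4, h5, h6, h7⟩
  · refine le_antisymm ?_ (zero_le)
    refine le_of_forall_gt_imp_ge_of_dense fun d hd => ?_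
    rcases eq_or_ne d ∞ with h | h
    · rw [h]; exact le_top
    obtain ⟨x, hx⟩ : ∃ x : ℝ, x = d.toReal := ⟨_, rfl⟩
    have hx0 : 0 < x := by rw [hx]; exact ENNReal.toReal_pos hd.ne' h
    have hdx : d = ENNReal.ofReal x := by rw [hx, ENNReal.ofReal_toReal h]
    rw [hdx]
    obtain ⟨κ, hκ⟩ : ∃ κ : ℝ, κ = 1 / x + 1 := ⟨_, rfl⟩
    have hx1 : 0 < 1 / x := by positivity
    have hκ1 : 1 / 4 < κ := by rw [hκ]; linarith
    refine (dimH_mono (show {a : ℂ | ∀ κ : ℝ, a ∈ Exceptional (1 / 2) κ} ⊆ Exceptional (1 / 2) κ from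
      fun a ha => ha κ)).trans ((exc_dim κ hκ1).trans (ENNReal.ofReal_le_ofReal ?_))
    rw [div_le_iff₀ (by linarith), hκ]
    have : x * (1 / x) = 1 := mul_one_div_cancel hx0.ne'
    nlinarith

end Pool.Agent.Results.MP_af3d17_nt.GenericAPoints
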