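import Pool.Agent.V8H35.LV.GL4

set_option autoImplicit false

/-!
# Small gaps between the solutions of `|ζ(1/2+it)| = a` for generic levels `a`

For almost every level `a > 0` the exponent of the smallest gaps is at least `-1/2`, and the number of
the solutions up to `X` with the next one at distance at most `X^(-κ)` is at most `X^(1-2κ+ε)`; the levels
with exponent below `-κ`, `κ > 1/2`, form a set of Hausdorff dimension at most `1/(2κ)`.
-/

namespace Pool.Agent.Results.MP_af3d17_nt.GenericLevels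

open Complex Metric Set MeasureTheory Filter
open scoped ENNReal

/-- the points of the critical line where `|ζ|` has the value `a` -/
def Sol (a : ℝ) : Set ℝ := {t : ℝ | ‖riemannZeta (1 / 2 + I * (t : ℂ))‖ = a}

/-- the solutions in `(X, 2X]` which have another solution to the right at distance at most `δ` -/
def Near (a δ X : ℝ) : Set ℝ := {t | X < t ∧ t ≤ 2 * X ∧ t ∈ Sol a ∧ ∃ t' ∈ Sol a, t < t' ∧ t' ≤ t + δ}

/-- the levels with arbitrarily high pairs of solutions at distance at most `t^(-κ)` -/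
def Exceptional (κ : ℝ) : Set ℝ := {a | 0 < a ∧ ∀ T : ℝ, ∃ t ∈ Sol a, ∃ t' ∈ Sol a,
  T ≤ t ∧ t < t' ∧ t' - t ≤ t ^ (-κ)}

theorem exc_dim_le (κ D : ℝ) (hκ : 0 < κ) (hD0 : 0 < D) (hD1 : D ≤ 1) (hD : 1 < 2 * κ * D) :
    dimH (Exceptional κ) ≤ ENNReal.ofReal D := by
  have h1 : Exceptional κ ⊆ ⋃ M : ℕ, Pool.Agent.V8H35.LV.Bad κ M := by
    rintro a ⟨ha, h⟩
    obtain ⟨M, hM⟩ := exists_nat_ge (1 / a)
    rw [mem_iUnion]
    refine ⟨M, ?_, fun T => ?_⟩
    · rw [div_le_iff₀ ha] at hM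
      exact hM
    · obtain ⟨t, ht, t', ht', h2, h3, h4⟩ := h T
      exact ⟨t, t', h2, h3, h4, ht, ht'⟩
  refine (dimH_mono h1).trans ?_
  rw [dimH_iUnion]
  exact iSup_le fun M => Pool.Agent.V8H35.LV.bad_dim κ D hκ hD0 hD1 hD M

theorem exc_dim (κ : ℝ) (hκ : 1 / 2 < κ) : dimH (Exceptional κ) ≤ ENNReal.ofReal (1 / (2 * κ)) := by
  refine le_of_forall_gt_imp_ge_of_dense fun d hd => ?_
  rcases eq_or_ne d ∞ with h | h
  · rw [h]; exact le_top
  obtain ⟨x, hx⟩ : ∃ x : ℝ, x = d.toReal := ⟨_, rfl⟩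
  have hdx : d = ENNReal.ofReal x := by rw [hx, ENNReal.ofReal_toReal h]
  rw [hdx] at hd ⊢
  have h2k : 0 < 2 * κ := by linarith
  have hlt : 1 / (2 * κ) < x := (ENNReal.ofReal_lt_ofReal_iff_of_nonneg (by positivity)).1 hd
  have hk1 : 1 / (2 * κ) < 1 := by rw [div_lt_one h2k]; linarith
  have hmin : 1 / (2 * κ) < min x 1 := lt_min hlt hk1
  have hpos : 0 < 1 / (2 * κ) := by positivity
  refine (exc_dim_le κ (min x 1) (by linarith) (by linarith) (min_le_right _ _) ?_).trans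
    (ENNReal.ofReal_le_ofReal (min_le_left _ _))
  rw [div_lt_iff₀ h2k] at hmin
  linarith

theorem exc_null (κ : ℝ) (hκ : 1 / 2 < κ) : volume (Exceptional κ) = 0 := by
  have h1 := exc_dim κ hκ
  have h2k : 0 < 2 * κ := by linarith
  have hk1 : 1 / (2 * κ) < 1 := by rw [div_lt_one h2k]; linarith
  have h2 : dimH (Exceptional κ) < ((1 : NNReal) : ℝ≥0∞) := by
    refine h1.trans_lt ?_
    rw [ENNReal.coe_one, ← ENNReal.ofReal_one]
    exact (ENNReal.ofReal_lt_ofReal_iff one_pos).2 hk1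
  have h3 := hausdorffMeasure_of_dimH_lt h2
  rw [NNReal.coe_one, hausdorffMeasure_real] at h3
  exact h3

theorem exc_mono {κ κ' : ℝ} (h : κ' ≤ κ) : Exceptional κ ⊆ Exceptional κ' := by
  rintro a ⟨ha, h1⟩
  refine ⟨ha, fun T => ?_⟩
  obtain ⟨t, ht, t', ht', h2, h3, h4⟩ := h1 (max T 1)
  refine ⟨t, ht, t', ht', (le_max_left _ _).trans h2, h3, h4.trans ?_⟩
  exact Real.rpow_le_rpow_of_exponent_le ((le_max_right _ _).trans h2) (by linarith)

theorem near_eq (a δ X : ℝ) : Near a δ X = Pool.Agent.V8H35.LV.close a δ X := by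
  ext t
  constructor
  · rintro ⟨h1, h2, h3, t', h4, h5, h6⟩
    exact ⟨h1, h2, h3, t', h5, h6, h4⟩
  · rintro ⟨h1, h2, h3, t', h4, h5, h6⟩
    exact ⟨h1, h2, h3, t', h6, h4, h5⟩

theorem near_count : ∀ᵐ a : ℝ, 0 < a → ∀ κ ε : ℝ, 0 ≤ κ → 0 < ε → ∃ X₀ : ℝ, ∀ X : ℝ, X₀ ≤ X →
    (Near a (X ^ (-κ)) X).Finite ∧ ((Near a (X ^ (-κ)) X).ncard : ℝ) ≤ X ^ (1 - 2 * κ + ε) := by
  have hae : ∀ᵐ a : ℝ, ∀ (q : ℚ) (n M : ℕ), ∀ᶠ j : ℕ in atTop,
      Pool.Agent.V8H35.LV.nn (q : ℝ) M j a ≤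
        ENNReal.ofReal ((2 : ℝ) ^ ((1 - 2 * (q : ℝ) + 1 / ((n : ℝ) + 1)) * j)) := by
    rw [ae_all_iff]
    intro q
    rw [ae_all_iff]
    intro n
    rw [ae_all_iff]
    intro M
    exact Pool.Agent.V8H35.LV.nn_ae (q : ℝ) (1 / ((n : ℝ) + 1)) (by positivity) M
  filter_upwards [hae] with a ha ha0 κ ε hκ hε
  obtain ⟨n, hn⟩ := exists_nat_one_div_lt (show (0 : ℝ) < ε / 6 by positivity)
  obtain ⟨M, hM⟩ := exists_nat_ge (1 / a)
  rw [div_le_iff₀ ha0] at hM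
  -- a rational number below κ
  obtain ⟨q, hq0, hq1, hq2⟩ : ∃ q : ℚ, (0 : ℝ) ≤ q ∧ (q : ℝ) ≤ κ ∧ κ - ε / 4 ≤ q := by
    rcases le_or_gt κ (ε / 4) with h | h
    · exact ⟨0, by simp, by simpa using hκ, by simpa using h⟩
    · obtain ⟨q, h1, h2⟩ := exists_rat_btwn (show κ - ε / 4 < κ by linarith)
      exact ⟨q, by linarith, h2.le, h1.le⟩
  obtain ⟨X₀, hX₀⟩ := Pool.Agent.V8H35.LV.close_count (q : ℝ) (1 / ((n : ℝ) + 1)) hq0 (by positivity) M a hM
    (ha q n M)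
  refine ⟨max X₀ 1, fun X hX => ?_⟩
  have h1 : X₀ ≤ X := (le_max_left _ _).trans hX
  have h2 : 1 ≤ X := (le_max_right _ _).trans hX
  obtain ⟨h3, h4⟩ := hX₀ X h1
  have hsub : Near a (X ^ (-κ)) X ⊆ Pool.Agent.V8H35.LV.close a (X ^ (-(q : ℝ))) X := by
    rw [near_eq]
    rintro t ⟨k1, k2, k3, t', k4, k5, k6⟩
    refine ⟨k1, k2, k3, t', k4, k5.trans ?_, k6⟩
    have := Real.rpow_le_rpow_of_exponent_le h2 (show -κ ≤ -(q : ℝ) by linarith)
    linarith
  refine ⟨h3.subset hsub, ?_⟩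
  have h5 : ((Near a (X ^ (-κ)) X).ncard : ℝ) ≤ (Pool.Agent.V8H35.LV.close a (X ^ (-(q : ℝ))) X).ncard := by
    exact_mod_cast Set.ncard_le_ncard hsub h3
  refine h5.trans (h4.trans ?_)
  exact Real.rpow_le_rpow_of_exponent_le h2 (by linarith)

/-- Small gaps between the solutions of `|ζ(1/2+it)| = a`.
(1) For almost every `a > 0` and all `κ ≥ 0`, `ε > 0`: for large `X` at most `X^(1-2κ+ε)` solutions in
`(X, 2X]` have the next solution at distance at most `X^(-κ)`.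
(2) For almost every `a > 0` and every `κ > 1/2` the distance of any two solutions `t < t'` with `t` large
is more than `t^(-κ)`.
(3) For `κ > 1/2` the exceptional levels in (2) form a set of Hausdorff dimension at most `1/(2κ)`.
(4) The levels for which the smallest gaps are below every power of `t` form a set of dimension zero. -/
theorem result :
    (∀ᵐ a : ℝ, 0 < a → ∀ κ ε : ℝ, 0 ≤ κ → 0 < ε → ∃ X₀ : ℝ, ∀ X : ℝ, X₀ ≤ X →
      (Near a (X ^ (-κ)) X).Finite ∧ ((Near a (X ^ (-κ)) X).ncard : ℝ) ≤ X ^ (1 - 2 * κ + ε)) ∧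
    (∀ᵐ a : ℝ, 0 < a → ∀ κ : ℝ, 1 / 2 < κ → ∃ T : ℝ, ∀ t ∈ Sol a, ∀ t' ∈ Sol a, T ≤ t → t < t' →
      t ^ (-κ) < t' - t) ∧
    (∀ κ : ℝ, 1 / 2 < κ → dimH (Exceptional κ) ≤ ENNReal.ofReal (1 / (2 * κ))) ∧
    dimH {a : ℝ | ∀ κ : ℝ, a ∈ Exceptional κ} = 0 := by
  refine ⟨near_count, ?_, exc_dim, ?_⟩
  · have hae : ∀ᵐ a : ℝ, ∀ q : ℚ, 1 / 2 < (q : ℝ) → a ∉ Exceptional (q : ℝ) := by
      rw [ae_all_iff]
      intro q
      by_cases hq : 1 / 2 < (q : ℝ)
      · filter_upwards [measure_eq_zero_iff_ae_notMem.1 (exc_null (q : ℝ) hq)] with a ha _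
        exact ha
      · exact Eventually.of_forall fun a h => absurd h hq
    filter_upwards [hae] with a ha ha0 κ hκ
    obtain ⟨q, h1, h2⟩ := exists_rat_btwn hκ
    have h3 := ha q h1
    by_contra hcon
    push Not at hcon
    apply h3
    refine ⟨ha0, fun T => ?_⟩
    obtain ⟨t, ht, t', ht', h4, h5, h6⟩ := hcon (max T 1)
    refine ⟨t, ht, t', ht', (le_max_left _ _).trans h4, h5, h6.trans ?_⟩
    exact Real.rpow_le_rpow_of_exponent_le ((le_max_right _ _).trans h4) (by linarith)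
  · refine le_antisymm ?_ (zero_le)
    refine le_of_forall_gt_imp_ge_of_dense fun d hd => ?_
    rcases eq_or_ne d ∞ with h | h
    · rw [h]; exact le_top
    obtain ⟨x, hx⟩ : ∃ x : ℝ, x = d.toReal := ⟨_, rfl⟩
    have hx0 : 0 < x := by rw [hx]; exact ENNReal.toReal_pos hd.ne' h
    have hdx : d = ENNReal.ofReal x := by rw [hx, ENNReal.ofReal_toReal h]
    rw [hdx]
    obtain ⟨κ, hκ⟩ : ∃ κ : ℝ, κ = 1 / x + 1 := ⟨_, rfl⟩
    have hx1 : 0 < 1 / x := by positivity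
    have hκ1 : 1 / 2 < κ := by rw [hκ]; linarith
    refine (dimH_mono (show {a : ℝ | ∀ κ : ℝ, a ∈ Exceptional κ} ⊆ Exceptional κ from
      fun a ha => ha κ)).trans ((exc_dim κ hκ1).trans (ENNReal.ofReal_le_ofReal ?_))
    rw [div_le_iff₀ (by linarith), hκ]
    have : x * (1 / x) = 1 := mul_one_div_cancel hx0.ne'
    nlinarith

end Pool.Agent.Results.MP_af3d17_nt.GenericLevels
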