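import Pool.Agent.V8H6.GP.Expo

/-!
# At least 67.25 percent of the gaps between zeta zeros are not small, unconditionally

The ordinates `0 < γ 1 ≤ γ 2 ≤ ...` of ALL nontrivial zeros of the Riemann zeta function are listed
with multiplicity; no hypothesis on the zeros is made.
-/

open Filter

namespace Pool.Agent.Results.MP_af3d17_nt.MostGaps

/-- the number of nontrivial zeros of `ζ` with ordinate in `(0, t]`, with multiplicity -/
noncomputable def N (t : ℝ) : ℕ :=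
  ∑ᶠ s ∈ {s : ℂ | riemannZeta s = 0 ∧ 0 < s.re ∧ s.re < 1 ∧ 0 < s.im ∧ s.im ≤ t},
    analyticOrderNatAt riemannZeta s

/-- for `n ≥ 1`: the `n`-th positive ordinate `γ n` of a nontrivial zero of `ζ`, the ordinates being
listed in nondecreasing order and repeated according to multiplicity -/
noncomputable def γ (n : ℕ) : ℝ := sInf {t : ℝ | n ≤ N t}

/-- the Montgomery-Taylor kernel -/
noncomputable def K (r : ℝ) : ℝ :=
  (∫ t in (-1 / 2 : ℝ)..(1 / 2), Real.cos (Real.sqrt 2 * t) * Real.cos (2 * Real.pi * r * t)) /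
    (Real.sqrt 2 * Real.sin (1 / Real.sqrt 2))

/-- the inverse of the Montgomery-Taylor constant, `1.32749...` -/
noncomputable def c₁ : ℝ := 1 / 2 + Real.cot (1 / Real.sqrt 2) / Real.sqrt 2

/-- `R(0)` -/
noncomputable def R0 : ℝ :=
  (1 + Real.sin (Real.sqrt 2) / Real.sqrt 2) / (4 * Real.sin (1 / Real.sqrt 2) ^ 2)

/-- the constant for intervals of length `T^h`; `c 1 = c₁` -/
noncomputable def c (h : ℝ) : ℝ := R0 / h + h * (c₁ - R0)

lemma K_eq (r : ℝ) : K r = H344.KK r := by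
  have h := H370.GramAux.kap_re_mul (2 * Real.pi * r)
  have hd := H370.GramAux.den_pos.ne'
  unfold K H344.KK
  rw [← h, mul_div_cancel_left₀ _ hd]

lemma c_eq {h : ℝ} (hh : 0 < h) : c h = H295Iso.c0 h := by
  have h1 : c₁ = H370.cMTinv := rfl
  have h2 := H228SI.constS 1 one_pos le_rfl
  have h4 : Real.sqrt 2 / 2 = 1 / Real.sqrt 2 := by
    rw [div_eq_div_iff (by norm_num) (by positivity), Real.mul_self_sqrt (by norm_num), one_mul]
  have h3 : H295SI.RS (Real.sqrt 2) 0 = R0 := by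
    unfold H295SI.RS R0
    have hs : Real.sqrt 2 ^ 2 = 2 := Real.sq_sqrt (by norm_num)
    rw [if_pos (by norm_num), hs, h4]
    simp only [abs_zero, sub_zero, mul_zero, Real.cos_zero, mul_one]
    ring
  have h5 : H295SI.cc 1 = H370.cMTinv := by
    unfold H295SI.cc H370.cMTinv
    rfl
  rw [mul_one, h5] at h2
  unfold c H295Iso.c0 H295SI.cR
  unfold H295SI.cR at h2
  rw [h3] at h2 ⊢
  rw [h1, ← h2]
  ring

/-- Unconditionally, for the ordinates of all nontrivial zeros listed with multiplicity: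
(1) for `0 < h ≤ 1`, `0 < r`, `h r ≤ 1/3`, `x ≥ 0`, in every interval `(T, T + H]` with
`T ^ h ≤ H ≤ T`, a proportion at least `1 - (c h - 1) / K (h r) ^ 2 - x / r - ε` of the gaps is at
least `x` times the average gap `2π / log T`;
(2) for every `ε > 0` there is `δ > 0` such that at least the proportion `0.6725 - ε` of all `n`
satisfies `γ (n + 1) - γ n ≥ δ / log n`;
(3) for every `ε > 0`, at least the proportion `0.6725 - ε` of all `n` satisfies
`n ^ (-ε) ≤ γ (n + 1) - γ n ≤ n ^ ε`. -/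
theorem result :
    (∀ h r x ε : ℝ, 0 < h → h ≤ 1 → 0 < r → h * r ≤ 1 / 3 → 0 ≤ x → 0 < ε →
      ∃ T₀ : ℝ, ∀ T : ℝ, T₀ ≤ T → ∀ H : ℝ, T ^ h ≤ H → H ≤ T →
        (1 - (c h - 1) / K (h * r) ^ 2 - x / r - ε) * ((N (T + H) : ℝ) - N T) ≤
          ({n : ℕ | 1 ≤ n ∧ T < γ n ∧ γ n ≤ T + H ∧
            x * (2 * Real.pi / Real.log T) ≤ γ (n + 1) - γ n}.ncard : ℝ)) ∧
    (∀ ε : ℝ, 0 < ε → ∃ δ : ℝ, 0 < δ ∧ ∀ᶠ M : ℕ in atTop, (0.6725 - ε) * M ≤
      ({n : ℕ | 1 ≤ n ∧ n ≤ M ∧ δ / Real.log n ≤ γ (n + 1) - γ n}.ncard : ℝ)) ∧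
    (∀ ε : ℝ, 0 < ε → ∀ᶠ M : ℕ in atTop, (0.6725 - ε) * M ≤
      ({n : ℕ | 1 ≤ n ∧ n ≤ M ∧ (n : ℝ) ^ (-ε) ≤ γ (n + 1) - γ n ∧
        γ (n + 1) - γ n ≤ (n : ℝ) ^ ε}.ncard : ℝ)) := by
  refine ⟨fun h r x ε hh hh1 hr0 hr hx hε => ?_, Pool.Agent.V8H6.GP.dens_gap,
    Pool.Agent.V8H6.GP.dens_expo⟩
  rw [c_eq hh, K_eq]
  exact Pool.Agent.V8H6.GP.window_r h r x ε hh hh1 hr0 hr hx hε

end Pool.Agent.Results.MP_af3d17_nt.MostGaps
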