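import Pool.Agent.V8H24.NS.Dens
import Pool.Agent.V8H6.LB.Main

/-!
# At most 16.38 percent of the gaps between zeta zeros are nonzero and small, unconditionally; and
a lower bound for the exponent of the smallest gaps needs RH and simplicity up to finitely many zeros

The ordinates `0 < γ 1 ≤ γ 2 ≤ ...` of ALL nontrivial zeros of the Riemann zeta function are listed
with multiplicity; no hypothesis on the zeros is made.
-/

open Filter

namespace Pool.Agent.Results.MP_af3d17_nt.NonzeroSmallGaps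

/-- the number of nontrivial zeros of `ζ` with ordinate in `(0, t]`, with multiplicity -/
noncomputable def N (t : ℝ) : ℕ :=
  ∑ᶠ s ∈ {s : ℂ | riemannZeta s = 0 ∧ 0 < s.re ∧ s.re < 1 ∧ 0 < s.im ∧ s.im ≤ t},
    analyticOrderNatAt riemannZeta s

/-- for `n ≥ 1`: the `n`-th positive ordinate `γ n` of a nontrivial zero of `ζ`, the ordinates being
listed in nondecreasing order and repeated according to multiplicity -/
noncomputable def γ (n : ℕ) : ℝ := sInf {t : ℝ | n ≤ N t}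

open Classical in
/-- the exponent of the smallest gaps, an extended real number, with `log 0 = -∞` -/
noncomputable def α : EReal :=
  liminf (fun n : ℕ => if γ (n + 1) - γ n = 0 then (⊥ : EReal)
    else ((Real.log (γ (n + 1) - γ n) / Real.log n : ℝ) : EReal)) atTop

/-- the exceptional zeros: the nontrivial zeros in the upper half plane that are off the critical
line or multiple -/
def Exceptional : Set ℂ :=
  {s : ℂ | riemannZeta s = 0 ∧ 0 < s.re ∧ s.re < 1 ∧ 0 < s.im ∧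
    (s.re ≠ 1 / 2 ∨ 2 ≤ analyticOrderNatAt riemannZeta s)}

/-- the constant for intervals of length `T^h`; `c 1 = 1.3274...` -/
noncomputable def c (h : ℝ) : ℝ := h / 2 + Real.cot (h / Real.sqrt 2) / Real.sqrt 2

/-- Unconditionally, for the ordinates of all nontrivial zeros listed with multiplicity:
(1) for `0 < h ≤ 1` and `ε > 0` there is `δ > 0` such that in every interval `(T, T + H]` with
`T ^ h ≤ H ≤ T`, `T` large, at most the proportion `(c h - 1) / 2 + ε` of the gaps is nonzero and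
smaller than `δ / log T`;
(2) for every `ε > 0` there is `δ > 0` such that at most the proportion `0.1638 + ε` of all `n`
satisfies `0 < γ (n + 1) - γ n < δ / log n`;
(3) for every `ε > 0`, at least the proportion `0.8362 - ε` of all `n` satisfies
`γ (n + 1) - γ n = 0` or `n ^ (-ε) ≤ γ (n + 1) - γ n ≤ n ^ ε`;
(4) if `α > -∞`, then for every `ε > 0` at least the proportion `0.8362 - ε` of all `n` satisfies
`γ (n + 1) - γ n ≥ δ / log n` (for some `δ > 0`), and at least the proportion `0.8362 - ε` satisfies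
`n ^ (-ε) ≤ γ (n + 1) - γ n ≤ n ^ ε`;
(5) there are infinitely many vanishing gaps if and only if there are infinitely many exceptional
zeros, and then `α = -∞`; that is, a lower bound `α > -∞` forces all but finitely many nontrivial
zeros to be simple and on the critical line. -/
theorem result :
    (∀ h ε : ℝ, 0 < h → h ≤ 1 → 0 < ε → ∃ δ T₀ : ℝ, 0 < δ ∧
      ∀ T : ℝ, T₀ ≤ T → ∀ H : ℝ, T ^ h ≤ H → H ≤ T →
        ({n : ℕ | 1 ≤ n ∧ T < γ n ∧ γ n ≤ T + H ∧ 0 < γ (n + 1) - γ n ∧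
          γ (n + 1) - γ n < δ / Real.log T}.ncard : ℝ) ≤
          ((c h - 1) / 2 + ε) * ((N (T + H) : ℝ) - N T)) ∧
    (∀ ε : ℝ, 0 < ε → ∃ δ : ℝ, 0 < δ ∧ ∀ᶠ M : ℕ in atTop,
      ({n : ℕ | 1 ≤ n ∧ n ≤ M ∧ 0 < γ (n + 1) - γ n ∧
        γ (n + 1) - γ n < δ / Real.log n}.ncard : ℝ) ≤ (0.1638 + ε) * M) ∧
    (∀ ε : ℝ, 0 < ε → ∀ᶠ M : ℕ in atTop, (0.8362 - ε) * M ≤
      ({n : ℕ | 1 ≤ n ∧ n ≤ M ∧ (γ (n + 1) - γ n = 0 ∨
        ((n : ℝ) ^ (-ε) ≤ γ (n + 1) - γ n ∧ γ (n + 1) - γ n ≤ (n : ℝ) ^ ε))}.ncard : ℝ)) ∧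
    (⊥ < α → ∀ ε : ℝ, 0 < ε →
      (∃ δ : ℝ, 0 < δ ∧ ∀ᶠ M : ℕ in atTop, (0.8362 - ε) * M ≤
        ({n : ℕ | 1 ≤ n ∧ n ≤ M ∧ δ / Real.log n ≤ γ (n + 1) - γ n}.ncard : ℝ)) ∧
      (∀ᶠ M : ℕ in atTop, (0.8362 - ε) * M ≤
        ({n : ℕ | 1 ≤ n ∧ n ≤ M ∧ (n : ℝ) ^ (-ε) ≤ γ (n + 1) - γ n ∧
          γ (n + 1) - γ n ≤ (n : ℝ) ^ ε}.ncard : ℝ))) ∧
    (({n : ℕ | 1 ≤ n ∧ γ (n + 1) = γ n}.Infinite ↔ Exceptional.Infinite) ∧
      (Exceptional.Infinite → α = ⊥) ∧ (⊥ < α → Exceptional.Finite)) := by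
  have hbot : {n : ℕ | 1 ≤ n ∧ γ (n + 1) = γ n}.Infinite → α = ⊥ := by
    intro hinf
    refine Pool.Agent.V8H6.LB.liminf_bot (hinf.mono ?_)
    intro n hn
    have h3 : γ (n + 1) = γ n := hn.2
    show (if γ (n + 1) - γ n = 0 then (⊥ : EReal)
      else ((Real.log (γ (n + 1) - γ n) / Real.log n : ℝ) : EReal)) = ⊥
    rw [if_pos (by rw [h3, sub_self])]
  have hiff : {n : ℕ | 1 ≤ n ∧ γ (n + 1) = γ n}.Infinite ↔ Exceptional.Infinite :=
    Pool.Agent.V8H6.LB.exc_iff.symm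
  refine ⟨fun h ε hh hh1 hε => ?_, Pool.Agent.V8H24.NS.dens_bad, ?_, fun hα => ?_, hiff,
    fun h => hbot (hiff.2 h), fun h => ?_⟩
  · obtain ⟨δ, T0, hδ, -, hw⟩ := Pool.Agent.V8H24.NS.window_nz h ε hh hh1 hε
    exact ⟨δ, T0, hδ, hw⟩
  · exact Pool.Agent.V8H24.NS.expo_of (fun n => γ (n + 1) - γ n = 0) 0.8362
      Pool.Agent.V8H24.NS.dens_good
  · have hfin : {n : ℕ | 1 ≤ n ∧ γ (n + 1) = γ n}.Finite := by
      by_contra hinf
      rw [hbot hinf] at hα
      exact lt_irrefl _ hα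
    have h1 := Pool.Agent.V8H24.NS.dens_fin hfin
    intro ε hε
    refine ⟨h1 ε hε, ?_⟩
    have h2 := Pool.Agent.V8H24.NS.expo_of (fun _ => False) 0.8362 (by
      simpa only [false_or] using h1) ε hε
    simp only [false_or] at h2
    exact h2
  · by_contra hinf
    rw [hbot (hiff.2 hinf)] at h
    exact lt_irrefl _ h

end Pool.Agent.Results.MP_af3d17_nt.NonzeroSmallGaps
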